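import Mathlib

/-!
The mean of the number of the divisors of `m` in a sparse family of integers.
-/

set_option autoImplicit false

namespace Pool.Agent.H583.MO

open Finset

section

variable {α : Type*}

/-- the sum of the reciprocals beyond `Y` -/
lemma recip (r : α → ℕ) (C θ : ℝ) (hC : 0 ≤ C) (hθ : θ < 1)
    (h : ∀ X : ℝ, 1 ≤ X → ∀ Q : Finset α, (∀ a ∈ Q, (r a : ℝ) ≤ X) → (Q.card : ℝ) ≤ C * X ^ θ) :
    ∃ D : ℝ, 0 ≤ D ∧ ∀ Y : ℝ, 1 ≤ Y → ∀ Q : Finset α, (∀ a ∈ Q, Y ≤ (r a : ℝ)) →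
      ∑ a ∈ Q, (1 / (r a : ℝ)) ≤ D * Y ^ (θ - 1) := by
  classical
  obtain ⟨ρ, hρ⟩ : ∃ ρ : ℝ, ρ = 2 ^ (θ - 1) := ⟨_, rfl⟩
  have hρ0 : 0 ≤ ρ := by rw [hρ]; positivity
  have hρ1 : ρ < 1 := by
    rw [hρ]
    exact Real.rpow_lt_one_of_one_lt_of_neg (by norm_num) (by linarith)
  refine ⟨C * 2 ^ θ * (1 - ρ)⁻¹, ?_, ?_⟩
  · have : 0 < 1 - ρ := by linarith
    positivity
  intro Y hY Q hQ
  have hY0 : 0 < Y := by linarith
  obtain ⟨f, hf⟩ : ∃ f : α → ℕ, f = fun a => Nat.log 2 ⌊(r a : ℝ) / Y⌋₊ := ⟨_, rfl⟩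
  have hlow : ∀ a ∈ Q, (2 : ℝ) ^ (f a) * Y ≤ r a ∧ (r a : ℝ) ≤ 2 ^ (f a + 1) * Y := by
    intro a ha
    have h1 : 1 ≤ (r a : ℝ) / Y := by rw [le_div_iff₀ hY0, one_mul]; exact hQ a ha
    have h2 : 1 ≤ ⌊(r a : ℝ) / Y⌋₊ := (Nat.one_le_floor_iff _).2 h1
    have h3 : 2 ^ (f a) ≤ ⌊(r a : ℝ) / Y⌋₊ := by
      rw [hf]
      exact Nat.pow_log_le_self 2 (by omega)
    have h4 : ⌊(r a : ℝ) / Y⌋₊ < 2 ^ (f a + 1) := by
      rw [hf]
      exact Nat.lt_pow_succ_log_self (by norm_num) _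
    constructor
    · rw [← le_div_iff₀ hY0]
      calc (2 : ℝ) ^ (f a) = ((2 ^ (f a) : ℕ) : ℝ) := by push_cast; rfl
        _ ≤ (⌊(r a : ℝ) / Y⌋₊ : ℝ) := by exact_mod_cast h3
        _ ≤ _ := Nat.floor_le (by positivity)
    · rw [← div_le_iff₀ hY0]
      have h5 : ⌊(r a : ℝ) / Y⌋₊ + 1 ≤ 2 ^ (f a + 1) := h4
      calc (r a : ℝ) / Y ≤ ⌊(r a : ℝ) / Y⌋₊ + 1 := (Nat.lt_floor_add_one _).le
        _ ≤ ((2 ^ (f a + 1) : ℕ) : ℝ) := by exact_mod_cast h5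
        _ = 2 ^ (f a + 1) := by push_cast; rfl
  have hmap : ∀ a ∈ Q, f a ∈ range (Q.sup f + 1) := by
    intro a ha
    rw [mem_range]
    exact Nat.lt_succ_of_le (Finset.le_sup ha)
  rw [← Finset.sum_fiberwise_of_maps_to hmap]
  have hbox : ∀ i ∈ range (Q.sup f + 1), ∑ a ∈ Q.filter (fun a => f a = i), (1 / (r a : ℝ)) ≤
      C * 2 ^ θ * Y ^ (θ - 1) * ρ ^ i := by
    intro i _
    have h2i : (0 : ℝ) < 2 ^ i := by positivity
    have h1 : ((Q.filter fun a => f a = i).card : ℝ) ≤ C * (2 ^ (i + 1) * Y) ^ θ := by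
      apply h
      · have : (1 : ℝ) ≤ 2 ^ (i + 1) := one_le_pow₀ (by norm_num)
        nlinarith
      · intro a ha
        rw [mem_filter] at ha
        have := (hlow a ha.1).2
        rwa [ha.2] at this
    have h2 : ∀ a ∈ Q.filter (fun a => f a = i), 1 / (r a : ℝ) ≤ 1 / (2 ^ i * Y) := by
      intro a ha
      rw [mem_filter] at ha
      have := (hlow a ha.1).1
      rw [ha.2] at this
      exact one_div_le_one_div_of_le (by positivity) this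
    calc ∑ a ∈ Q.filter (fun a => f a = i), (1 / (r a : ℝ)) ≤
          ∑ _a ∈ Q.filter (fun a => f a = i), 1 / (2 ^ i * Y) := Finset.sum_le_sum h2
      _ = ((Q.filter fun a => f a = i).card : ℝ) * (1 / (2 ^ i * Y)) := by
          rw [Finset.sum_const, nsmul_eq_mul]
      _ ≤ (C * (2 ^ (i + 1) * Y) ^ θ) * (1 / (2 ^ i * Y)) :=
          mul_le_mul_of_nonneg_right h1 (by positivity)
      _ = _ := by
          have e1 : ((2 : ℝ) ^ (i + 1) * Y) ^ θ = 2 ^ θ * ((2 : ℝ) ^ i) ^ θ * Y ^ θ := by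
            rw [pow_succ, Real.mul_rpow (by positivity) hY0.le, Real.mul_rpow (by positivity) (by norm_num)]
            ring
          have e2 : Y ^ (θ - 1) = Y ^ θ / Y := by
            rw [Real.rpow_sub hY0, Real.rpow_one]
          have e3 : ρ ^ i = ((2 : ℝ) ^ i) ^ θ / 2 ^ i := by
            rw [hρ, ← Real.rpow_natCast, ← Real.rpow_mul (by norm_num), ← Real.rpow_natCast,
              ← Real.rpow_mul (by norm_num), ← Real.rpow_sub (by norm_num)]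
            congr 1
            ring
          rw [e1, e2, e3]
          field_simp
  calc ∑ i ∈ range (Q.sup f + 1), ∑ a ∈ Q.filter (fun a => f a = i), (1 / (r a : ℝ)) ≤
        ∑ i ∈ range (Q.sup f + 1), C * 2 ^ θ * Y ^ (θ - 1) * ρ ^ i := Finset.sum_le_sum hbox
    _ = C * 2 ^ θ * Y ^ (θ - 1) * ∑ i ∈ range (Q.sup f + 1), ρ ^ i := by rw [Finset.mul_sum]
    _ ≤ C * 2 ^ θ * Y ^ (θ - 1) * (1 - ρ)⁻¹ := by
        apply mul_le_mul_of_nonneg_left _ (by positivity)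
        rw [← tsum_geometric_of_lt_one hρ0 hρ1]
        exact (summable_geometric_of_lt_one hρ0 hρ1).sum_le_tsum _ fun i _ => pow_nonneg hρ0 i
    _ = _ := by ring

/-- a bound for all finite subsets is a bound for the set -/
lemma fin_of_bound {S : Set α} {B : ℝ} (hB : ∀ Q : Finset α, (∀ q ∈ Q, q ∈ S) → (Q.card : ℝ) ≤ B) :
    S.Finite := by
  by_contra hcon
  obtain ⟨t, ht, hc⟩ := Set.Infinite.exists_subset_card_eq hcon (⌊B⌋₊ + 1)
  have h1 := hB t fun q hq => ht (Finset.mem_coe.2 hq)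
  rw [hc] at h1
  have h2 := Nat.lt_floor_add_one B
  push_cast at h1
  linarith

/-- the number of the multiples -/
lemma card_mult (X d : ℕ) : ((Icc 1 X).filter fun m => d ∣ m).card = X / d := by
  have h : Icc 1 X = Ioc 0 X := by
    ext m
    rw [mem_Icc, mem_Ioc]
    omega
  rw [h, Nat.Ioc_filter_dvd_card_eq_div]

lemma div_close (X : ℕ) {d : ℕ} (hd : 0 < d) : |((X / d : ℕ) : ℝ) - (X : ℝ) / d| ≤ 1 := by
  have h1 : ((X / d : ℕ) : ℝ) ≤ (X : ℝ) / d := Nat.cast_div_le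
  have h2 : (X : ℝ) / d ≤ ((X / d : ℕ) : ℝ) + 1 := by
    have hd' : (0 : ℝ) < d := by exact_mod_cast hd
    rw [div_le_iff₀ hd']
    have h3 : X < d * (X / d + 1) := Nat.lt_mul_div_succ X hd
    have h4 : (X : ℝ) ≤ d * ((X / d : ℕ) + 1) := by exact_mod_cast h3.le
    linarith
  rw [abs_le]
  constructor <;> linarith

/-- **the mean number of the members of a sparse family which divide `m`** -/
theorem mean (r : α → ℕ) (hr : ∀ a, 0 < r a) (θ : ℝ) (hθ : θ < 1)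
    (h : ∀ ε : ℝ, 0 < ε → ∃ C : ℝ, 0 ≤ C ∧ ∀ X : ℝ, 1 ≤ X → ∀ Q : Finset α,
      (∀ a ∈ Q, (r a : ℝ) ≤ X) → (Q.card : ℝ) ≤ C * X ^ (θ + ε)) :
    ∀ ε : ℝ, 0 < ε → ∃ C : ℝ, 0 < C ∧ ∀ X : ℕ, 1 ≤ X →
      |∑ m ∈ Icc 1 X, (({a | r a ∣ m} : Set α).ncard : ℝ) - (∑' a, 1 / (r a : ℝ)) * X| ≤
        C * (X : ℝ) ^ (θ + ε) := by
  classical
  intro ε hε
  obtain ⟨δ, hδ⟩ : ∃ δ, δ = min ε ((1 - θ) / 2) := ⟨_, rfl⟩
  have hδ0 : 0 < δ := by rw [hδ]; exact lt_min hε (by linarith)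
  have hδ1 : δ ≤ ε := by rw [hδ]; exact min_le_left _ _
  have hδ2 : θ + δ < 1 := by
    have : δ ≤ (1 - θ) / 2 := by rw [hδ]; exact min_le_right _ _
    linarith
  obtain ⟨C, hC, hcount⟩ := h δ hδ0
  obtain ⟨D, hD, hrec⟩ := recip r C (θ + δ) hC hδ2 hcount
  have hnn : ∀ a, 0 ≤ 1 / (r a : ℝ) := fun a => by positivity
  have hsum : Summable fun a => 1 / (r a : ℝ) := by
    apply summable_of_sum_le hnn (c := D)
    intro u
    have := hrec 1 le_rfl u fun a _ => by exact_mod_cast hr a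
    rwa [Real.one_rpow, mul_one] at this
  refine ⟨C + D + 1, by positivity, ?_⟩
  intro X hX
  have hX1 : (1 : ℝ) ≤ X := by exact_mod_cast hX
  have hX0 : (0 : ℝ) < X := by linarith
  have hfin : ({a | (r a : ℝ) ≤ X} : Set α).Finite :=
    fin_of_bound (B := C * (X : ℝ) ^ (θ + δ)) fun Q hQ => hcount X hX1 Q hQ
  obtain ⟨F, hF⟩ : ∃ F, F = hfin.toFinset := ⟨_, rfl⟩
  have hmemF : ∀ a, a ∈ F ↔ (r a : ℝ) ≤ X := by
    intro a
    rw [hF, Set.Finite.mem_toFinset]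
    exact Iff.rfl
  have hFc : (F.card : ℝ) ≤ C * (X : ℝ) ^ (θ + δ) := hcount X hX1 F fun a ha => (hmemF a).1 ha
  -- the sum over `m`
  have h1 : ∑ m ∈ Icc 1 X, (({a | r a ∣ m} : Set α).ncard : ℝ) = ∑ a ∈ F, ((X / r a : ℕ) : ℝ) := by
    have e1 : ∀ m ∈ Icc 1 X, (({a | r a ∣ m} : Set α).ncard : ℝ) =
        ∑ a ∈ F, if r a ∣ m then (1 : ℝ) else 0 := by
      intro m hm
      rw [mem_Icc] at hm
      have e2 : ({a | r a ∣ m} : Set α) = ↑(F.filter fun a => r a ∣ m) := by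
        ext a
        rw [Set.mem_ofPred_eq, mem_coe, mem_filter, hmemF]
        constructor
        · intro hd
          have := Nat.le_of_dvd (by omega) hd
          exact ⟨by exact_mod_cast this.trans hm.2, hd⟩
        · exact fun hd => hd.2
      rw [e2, Set.ncard_coe_finset, Finset.card_filter]
      push_cast
      rfl
    rw [Finset.sum_congr rfl e1, Finset.sum_comm]
    apply Finset.sum_congr rfl
    intro a _
    rw [← card_mult X (r a), Finset.card_filter]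
    push_cast
    rfl
  have h2 : |∑ a ∈ F, ((X / r a : ℕ) : ℝ) - (∑ a ∈ F, 1 / (r a : ℝ)) * X| ≤ F.card := by
    rw [Finset.sum_mul, ← Finset.sum_sub_distrib]
    refine (Finset.abs_sum_le_sum_abs _ _).trans ?_
    calc ∑ a ∈ F, |((X / r a : ℕ) : ℝ) - 1 / (r a : ℝ) * X| ≤ ∑ _a ∈ F, (1 : ℝ) := by
          apply Finset.sum_le_sum
          intro a _
          have := div_close X (hr a)
          rwa [show 1 / (r a : ℝ) * X = (X : ℝ) / r a by ring]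
      _ = F.card := by rw [Finset.sum_const, nsmul_eq_mul, mul_one]
  have h3 : (∑' a, 1 / (r a : ℝ)) ≤ ∑ a ∈ F, 1 / (r a : ℝ) + D * (X : ℝ) ^ (θ + δ - 1) := by
    apply Summable.tsum_le_of_sum_le hsum
    intro G
    have e1 : ∑ a ∈ G, 1 / (r a : ℝ) = ∑ a ∈ G.filter (· ∈ F), 1 / (r a : ℝ) +
        ∑ a ∈ G.filter (· ∉ F), 1 / (r a : ℝ) := (Finset.sum_filter_add_sum_filter_not G _ _).symm
    rw [e1]
    apply add_le_add
    · apply Finset.sum_le_sum_of_subset_of_nonneg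
      · intro a ha
        exact (mem_filter.1 ha).2
      · intro a _ _
        exact hnn a
    · apply hrec X hX1
      intro a ha
      have h4 := (mem_filter.1 ha).2
      rw [hmemF, not_le] at h4
      exact h4.le
  have h4 : ∑ a ∈ F, 1 / (r a : ℝ) ≤ ∑' a, 1 / (r a : ℝ) :=
    hsum.sum_le_tsum F fun a _ => hnn a
  have h5 : (X : ℝ) ^ (θ + δ - 1) * X = (X : ℝ) ^ (θ + δ) := by
    rw [Real.rpow_sub hX0, Real.rpow_one]
    field_simp
  have h6 : (X : ℝ) ^ (θ + δ) ≤ (X : ℝ) ^ (θ + ε) :=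
    Real.rpow_le_rpow_of_exponent_le hX1 (by linarith)
  have h7 : 0 < (X : ℝ) ^ (θ + δ) := by positivity
  rw [h1]
  have h8 : |(∑ a ∈ F, 1 / (r a : ℝ)) * X - (∑' a, 1 / (r a : ℝ)) * X| ≤
      D * (X : ℝ) ^ (θ + δ) := by
    rw [← sub_mul, abs_mul, abs_of_pos hX0, abs_sub_comm, abs_of_nonneg (by linarith)]
    calc ((∑' a, 1 / (r a : ℝ)) - ∑ a ∈ F, 1 / (r a : ℝ)) * X ≤
          (D * (X : ℝ) ^ (θ + δ - 1)) * X := by
          apply mul_le_mul_of_nonneg_right _ hX0.le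
          linarith
      _ = _ := by rw [mul_assoc, h5]
  calc |∑ a ∈ F, ((X / r a : ℕ) : ℝ) - (∑' a, 1 / (r a : ℝ)) * X| ≤
        |∑ a ∈ F, ((X / r a : ℕ) : ℝ) - (∑ a ∈ F, 1 / (r a : ℝ)) * X| +
        |(∑ a ∈ F, 1 / (r a : ℝ)) * X - (∑' a, 1 / (r a : ℝ)) * X| := abs_sub_le _ _ _
    _ ≤ C * (X : ℝ) ^ (θ + δ) + D * (X : ℝ) ^ (θ + δ) := add_le_add (h2.trans hFc) h8
    _ ≤ (C + D + 1) * (X : ℝ) ^ (θ + δ) := by nlinarith
    _ ≤ (C + D + 1) * (X : ℝ) ^ (θ + ε) := mul_le_mul_of_nonneg_left h6 (by positivity)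

/-- the number of the `m` which have a divisor in a sparse family beyond `R` -/
theorem rare (r : α → ℕ) (C θ : ℝ) (hC : 0 ≤ C) (hθ : θ < 1)
    (h : ∀ X : ℝ, 1 ≤ X → ∀ Q : Finset α, (∀ a ∈ Q, (r a : ℝ) ≤ X) → (Q.card : ℝ) ≤ C * X ^ θ) :
    ∃ D : ℝ, 0 < D ∧ ∀ R : ℝ, 1 ≤ R → ∀ X : ℕ, 1 ≤ X →
      ((({m | 1 ≤ m ∧ m ≤ X ∧ ∃ a, r a ∣ m ∧ R < r a} : Set ℕ).ncard : ℕ) : ℝ) ≤
        D * R ^ (θ - 1) * X := by
  classical
  obtain ⟨D, hD, hrec⟩ := recip r C θ hC hθ h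
  refine ⟨D + 1, by positivity, ?_⟩
  intro R hR X hX
  have hR0 : 0 < R := by linarith
  have hX1 : (1 : ℝ) ≤ X := by exact_mod_cast hX
  have hfin : ({a | (r a : ℝ) ≤ X} : Set α).Finite :=
    fin_of_bound (B := C * (X : ℝ) ^ θ) fun Q hQ => h X hX1 Q hQ
  obtain ⟨F, hF⟩ : ∃ F, F = hfin.toFinset.filter fun a => R < (r a : ℝ) := ⟨_, rfl⟩
  have hsub : ({m | 1 ≤ m ∧ m ≤ X ∧ ∃ a, r a ∣ m ∧ R < r a} : Set ℕ) ⊆
      ↑(F.biUnion fun a => (Icc 1 X).filter fun m => r a ∣ m) := by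
    rintro m ⟨h1, h2, a, h3, h4⟩
    rw [mem_coe, mem_biUnion]
    refine ⟨a, ?_, ?_⟩
    · rw [hF, mem_filter, Set.Finite.mem_toFinset]
      refine ⟨?_, h4⟩
      have := Nat.le_of_dvd (by omega) h3
      show (r a : ℝ) ≤ X
      exact_mod_cast this.trans h2
    · rw [mem_filter, mem_Icc]
      exact ⟨⟨h1, h2⟩, h3⟩
  have h1 : (({m | 1 ≤ m ∧ m ≤ X ∧ ∃ a, r a ∣ m ∧ R < r a} : Set ℕ).ncard) ≤
      ∑ a ∈ F, X / r a := by
    have e1 := Set.ncard_le_ncard hsub (Finset.finite_toSet _)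
    rw [Set.ncard_coe_finset] at e1
    refine e1.trans (card_biUnion_le.trans (le_of_eq ?_))
    exact Finset.sum_congr rfl fun a _ => card_mult X (r a)
  have h2 : ∑ a ∈ F, 1 / (r a : ℝ) ≤ D * R ^ (θ - 1) := by
    apply hrec R hR
    intro a ha
    rw [hF, mem_filter] at ha
    exact ha.2.le
  calc (((({m | 1 ≤ m ∧ m ≤ X ∧ ∃ a, r a ∣ m ∧ R < r a} : Set ℕ).ncard : ℕ)) : ℝ) ≤
        ((∑ a ∈ F, X / r a : ℕ) : ℝ) := by exact_mod_cast h1
    _ = ∑ a ∈ F, ((X / r a : ℕ) : ℝ) := by push_cast; rfl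
    _ ≤ ∑ a ∈ F, 1 / (r a : ℝ) * X := by
        apply Finset.sum_le_sum
        intro a _
        have : ((X / r a : ℕ) : ℝ) ≤ (X : ℝ) / r a := Nat.cast_div_le
        rwa [show 1 / (r a : ℝ) * X = (X : ℝ) / r a by ring]
    _ = (∑ a ∈ F, 1 / (r a : ℝ)) * X := by rw [Finset.sum_mul]
    _ ≤ (D * R ^ (θ - 1)) * X := mul_le_mul_of_nonneg_right h2 (by linarith)
    _ ≤ (D + 1) * R ^ (θ - 1) * X := by
        apply mul_le_mul_of_nonneg_right _ (by linarith)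
        apply mul_le_mul_of_nonneg_right _ (by positivity)
        linarith

end

end Pool.Agent.H583.MO
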