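import Pool.Agent.H583.AL.C
import Pool.Agent.H583.MO.A

/-!
Tuples of points off a linked arrangement.
-/

set_option autoImplicit false

namespace Pool.Agent.H583.MO

open Finset Pool.Agent.T2H20.ABC Pool.Agent.T2H20.AH Pool.Agent.H785R2.ABC Pool.Agent.H583.SF
  Pool.Agent.H583.WT Pool.Agent.H583.AL Pool.Agent.H583.AR

section

variable {n q k : ℕ}

/-- the primes outside `S` dividing a value of a form at one of the points -/
def bj {j : ℕ} (S : Finset ℕ) (L : Fin q → Fin (n + 1) → ℤ) (x : Fin j → Fin (n + 1) → ℤ) :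
    Finset ℕ := univ.biUnion fun i => (∏ l, vl L (x i) l).natAbs.primeFactors \ S

/-- their product -/
def rdj {j : ℕ} (S : Finset ℕ) (L : Fin q → Fin (n + 1) → ℤ) (x : Fin j → Fin (n + 1) → ℤ) : ℕ :=
  ∏ p ∈ bj S L x, p

lemma bj_prime {j : ℕ} {S : Finset ℕ} {L : Fin q → Fin (n + 1) → ℤ} {x : Fin j → Fin (n + 1) → ℤ}
    {p : ℕ} (h : p ∈ bj S L x) : p.Prime := by
  obtain ⟨i, -, h⟩ := mem_biUnion.1 h
  exact Nat.prime_of_mem_primeFactors (mem_sdiff.1 h).1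

lemma rdj_pos {j : ℕ} (S : Finset ℕ) (L : Fin q → Fin (n + 1) → ℤ) (x : Fin j → Fin (n + 1) → ℤ) :
    0 < rdj S L x := Finset.prod_pos fun _ hp => (bj_prime hp).pos

lemma prod_dvd_iff {s : Finset ℕ} (hs : ∀ p ∈ s, p.Prime) (m : ℕ) :
    ∏ p ∈ s, p ∣ m ↔ ∀ p ∈ s, p ∣ m :=
  ⟨fun h _ hp => (Finset.dvd_prod_of_mem _ hp).trans h,
    fun h => Finset.prod_primes_dvd m (fun p hp => (hs p hp).prime) h⟩

lemma rdj_dvd {j : ℕ} (S : Finset ℕ) (L : Fin q → Fin (n + 1) → ℤ) (x : Fin j → Fin (n + 1) → ℤ)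
    (m : ℕ) : rdj S L x ∣ m ↔ ∀ i, AR.rd S L (x i) ∣ m := by
  unfold rdj AR.rd
  rw [prod_dvd_iff fun p hp => bj_prime hp]
  unfold bj
  constructor
  · intro h i
    rw [prod_dvd_iff fun p hp => Nat.prime_of_mem_primeFactors (mem_sdiff.1 hp).1]
    intro p hp
    exact h p (mem_biUnion.2 ⟨i, mem_univ i, hp⟩)
  · intro h p hp
    obtain ⟨i, -, hp⟩ := mem_biUnion.1 hp
    have := h i
    rw [prod_dvd_iff fun p hp => Nat.prime_of_mem_primeFactors (mem_sdiff.1 hp).1] at this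
    exact this p hp

variable {N : ℕ} {F : ℕ → Fin k → ℤ × ℤ} {c : ℕ → Fin k → ℤ}
  {L : Fin q → Fin (n + 1) → ℤ} {b : ℕ → Fin q} {p : ℕ → ℕ} {f : ℕ → Fin k → Fin q}

/-- the sequence of the ratios of a tuple -/
def sj (L : Fin q → Fin (n + 1) → ℤ) (N : ℕ) (b : ℕ → Fin q) (p : ℕ → ℕ) {j : ℕ}
    (x : Fin j → Fin (n + 1) → ℤ) : Fin (j * N) → ℤ × ℤ :=
  fun t => rp L b p (x t.divNat) ((t : ℕ) % N)

lemma sj_eq {j : ℕ} {x y : Fin j → Fin (n + 1) → ℤ} (h : sj L N b p x = sj L N b p y) (i : Fin j) :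
    sx L N b p (x i) = sx L N b p (y i) := by
  funext m
  have h1 := congrFun h (finProdFinEquiv (i, m))
  have h2 := finProdFinEquiv.symm_apply_apply (i, m)
  have h3 : (finProdFinEquiv (i, m)).divNat = i := congrArg Prod.fst h2
  have h4 : (finProdFinEquiv (i, m)).modNat = m := congrArg Prod.snd h2
  have h5 : ((finProdFinEquiv (i, m) : Fin (j * N)) : ℕ) % N = (m : ℕ) := by
    rw [← Fin.coe_modNat, h4]
  unfold sj at h1
  rw [h3, h5] at h1
  exact h1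

open Classical in
/-- **tuples of points off an arrangement** -/
theorem tuples (hk : 3 ≤ k) (H : Tr L N b p F f c) (S : Finset ℕ) (j : ℕ) (ε : ℝ) (hε : 0 < ε) :
    ∃ C : ℝ, 0 < C ∧ ∀ X : ℝ, 1 ≤ X → ∀ Q : Finset (Fin j → Fin (n + 1) → ℤ),
    (∀ x ∈ Q, (∀ i, univ.gcd (x i) = 1 ∧ ∀ l, vl L (x i) l ≠ 0) ∧ (rdj S L x : ℝ) ≤ X) →
    (Q.card : ℝ) ≤ C * X ^ (2 / (k : ℝ) + ε) := by
  have hN : ∀ m, m < j * N → m % N < N := by
    intro m hm
    apply Nat.mod_lt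
    apply Nat.pos_of_ne_zero
    rintro rfl
    simp at hm
  obtain ⟨C, hC, h⟩ := seqs k hk (fun m => F (m % N)) (S2 S N F c) (fun r hr => S2_prime hr) (j * N)
    (fun m hm a a' haa => H.F0 _ (hN m hm) a a' haa) (fun m hm a a' _ => S2_det _ (hN m hm) a a')
    ε hε
  have hk0 : (0 : ℝ) < k := by
    have : 0 < k := by omega
    exact_mod_cast this
  refine ⟨2 ^ j * C, by positivity, ?_⟩
  intro X hX Q hQ
  have hX0 : (0 : ℝ) < X := by linarith
  have hfib : Q.card ≤ 2 ^ j * (Q.image (sj L N b p)).card := by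
    apply Finset.card_le_mul_card_image
    intro t ht
    rw [mem_image] at ht
    obtain ⟨x0, hx0, rfl⟩ := ht
    have hsub : (Q.filter fun x => sj L N b p x = sj L N b p x0) ⊆
        Fintype.piFinset fun i => ({x0 i, -x0 i} : Finset (Fin (n + 1) → ℤ)) := by
      intro y hy
      rw [mem_filter] at hy
      obtain ⟨g1, -⟩ := hQ x0 hx0
      obtain ⟨g1', -⟩ := hQ y hy.1
      rw [Fintype.mem_piFinset]
      intro i
      rw [mem_insert, mem_singleton]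
      exact sx_inj H (g1 i).1 (g1' i).1 (g1 i).2 (g1' i).2 (sj_eq hy.2.symm i)
    refine (card_le_card hsub).trans ?_
    rw [Fintype.card_piFinset]
    calc ∏ i : Fin j, ({x0 i, -x0 i} : Finset (Fin (n + 1) → ℤ)).card ≤ ∏ _i : Fin j, 2 :=
          Finset.prod_le_prod' fun i _ => Finset.card_le_two
      _ = 2 ^ j := by rw [Finset.prod_const, card_univ, Fintype.card_fin]
  have h1 := h ⌊X⌋₊ (Nat.le_floor (by exact_mod_cast hX)) (Q.image (sj L N b p)) (by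
    intro t ht
    rw [mem_image] at ht
    obtain ⟨x, hxQ, rfl⟩ := ht
    obtain ⟨g1, g3⟩ := hQ x hxQ
    refine ⟨fun m => ⟨rp_coprime _ _, fp_ne H (g1 _).2 (hN m m.isLt)⟩, ?_⟩
    refine le_trans ?_ (Nat.le_floor g3)
    unfold AL.Rs rdj
    apply Finset.prod_le_prod_of_subset_of_one_le'
    · intro r hr
      obtain ⟨t, -, ht⟩ := mem_biUnion.1 hr
      unfold bj
      rw [mem_biUnion]
      refine ⟨t.divNat, mem_univ _, ?_⟩
      apply bs_sub H (g1 t.divNat).2 S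
      unfold bs
      rw [mem_biUnion]
      exact ⟨⟨(t : ℕ) % N, hN t t.isLt⟩, mem_univ _, ht⟩
    · intro r hr _
      exact (bj_prime hr).one_lt.le)
  have h2 : (Q.card : ℝ) ≤ 2 ^ j * ((Q.image (sj L N b p)).card : ℝ) := by exact_mod_cast hfib
  refine h2.trans ?_
  rw [mul_assoc]
  refine mul_le_mul_of_nonneg_left (h1.trans ?_) (by positivity)
  apply mul_le_mul_of_nonneg_left _ hC.le
  exact Real.rpow_le_rpow (Nat.cast_nonneg _) (Nat.floor_le hX0.le) (by positivity)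

/-- the points which are integral outside of `S` and the primes dividing `m` -/
def Ym (S : Finset ℕ) (L : Fin q → Fin (n + 1) → ℤ) (m : ℕ) : Set (Fin (n + 1) → ℤ) :=
  {x | univ.gcd x = 1 ∧ (∀ l, vl L x l ≠ 0) ∧ AR.rd S L x ∣ m}

/-- the tuples of points -/
def Tp (L : Fin q → Fin (n + 1) → ℤ) (j : ℕ) : Type :=
  {x : Fin j → Fin (n + 1) → ℤ // ∀ i, univ.gcd (x i) = 1 ∧ ∀ l, vl L (x i) l ≠ 0}

/-- the product of the primes of a tuple -/
def rt (S : Finset ℕ) (L : Fin q → Fin (n + 1) → ℤ) (j : ℕ) (a : Tp L j) : ℕ := rdj S L a.1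

/-- tuples of integral points -/
def tEquiv (S : Finset ℕ) (L : Fin q → Fin (n + 1) → ℤ) (j m : ℕ) :
    {a : Tp L j // rt S L j a ∣ m} ≃ (Fin j → Ym S L m) where
  toFun a := fun i => ⟨a.1.1 i, (a.1.2 i).1, (a.1.2 i).2, (rdj_dvd S L a.1.1 m).1 a.2 i⟩
  invFun g := ⟨⟨fun i => (g i).1, fun i => ⟨(g i).2.1, (g i).2.2.1⟩⟩,
    (rdj_dvd S L (fun i => (g i).1) m).2 fun i => (g i).2.2.2⟩
  left_inv _ := rfl
  right_inv _ := rfl

lemma ncard_tuples (S : Finset ℕ) (L : Fin q → Fin (n + 1) → ℤ) (j m : ℕ) :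
    ({a | rt S L j a ∣ m} : Set (Tp L j)).ncard = (Ym S L m).ncard ^ j := by
  have h1 : ({a | rt S L j a ∣ m} : Set (Tp L j)).ncard = Nat.card {a : Tp L j // rt S L j a ∣ m} :=
    rfl
  rw [h1, Nat.card_congr (tEquiv S L j m), Nat.card_fun, Nat.card_fin]
  rfl

/-- the hypothesis of the abstract theorem -/
lemma tp_count (hk : 3 ≤ k) (H : Tr L N b p F f c) (S : Finset ℕ) (j : ℕ) (ε : ℝ) (hε : 0 < ε) :
    ∃ C : ℝ, 0 ≤ C ∧ ∀ X : ℝ, 1 ≤ X → ∀ Q : Finset (Tp L j),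
      (∀ a ∈ Q, (rt S L j a : ℝ) ≤ X) → (Q.card : ℝ) ≤ C * X ^ (2 / (k : ℝ) + ε) := by
  classical
  obtain ⟨C, hC, h⟩ := tuples hk H S j ε hε
  refine ⟨C, hC.le, ?_⟩
  intro X hX Q hQ
  have h1 := h X hX (Q.image Subtype.val) (by
    intro x hx
    rw [mem_image] at hx
    obtain ⟨a, ha, rfl⟩ := hx
    exact ⟨a.2, hQ a ha⟩)
  rwa [Finset.card_image_of_injective _ Subtype.val_injective] at h1

/-- **all moments of the number of the integral points** -/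
theorem moments (hk : 3 ≤ k) (H : Tr L N b p F f c) (S : Finset ℕ) (j : ℕ) : ∃ M : ℝ, 0 ≤ M ∧
    ∀ ε : ℝ, 0 < ε → ∃ C : ℝ, 0 < C ∧ ∀ X : ℕ, 1 ≤ X →
      |∑ m ∈ Icc 1 X, ((Ym S L m).ncard : ℝ) ^ j - M * X| ≤ C * (X : ℝ) ^ (2 / (k : ℝ) + ε) := by
  have hk3 : (3 : ℝ) ≤ k := by exact_mod_cast hk
  have hθ : 2 / (k : ℝ) < 1 := by
    rw [div_lt_one (by linarith)]
    linarith
  refine ⟨∑' a : Tp L j, 1 / (rt S L j a : ℝ), tsum_nonneg fun a => by positivity, ?_⟩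
  intro ε hε
  obtain ⟨C, hC, h⟩ := mean (rt S L j) (fun a => rdj_pos S L a.1) (2 / (k : ℝ)) hθ
    (fun ε hε => tp_count hk H S j ε hε) ε hε
  refine ⟨C, hC, ?_⟩
  intro X hX
  have h1 := h X hX
  have h2 : ∑ m ∈ Icc 1 X, ((({a | rt S L j a ∣ m} : Set (Tp L j)).ncard : ℕ) : ℝ) =
      ∑ m ∈ Icc 1 X, ((Ym S L m).ncard : ℝ) ^ j := by
    apply Finset.sum_congr rfl
    intro m _
    rw [ncard_tuples]
    push_cast
    rfl
  rw [h2] at h1
  exact h1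

end

end Pool.Agent.H583.MO
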