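import Pool.Agent.H583.MO.B

/-!
For most `m` all integral points have bounded height.
-/

set_option autoImplicit false

namespace Pool.Agent.H583.MO

open Finset Pool.Agent.T2H20.ABC Pool.Agent.T2H20.AH Pool.Agent.H785R2.ABC Pool.Agent.H583.SF
  Pool.Agent.H583.WT Pool.Agent.H583.AL Pool.Agent.H583.AR

section

variable {n q k : ℕ} {N : ℕ} {F : ℕ → Fin k → ℤ × ℤ} {c : ℕ → Fin k → ℤ}
  {L : Fin q → Fin (n + 1) → ℤ} {b : ℕ → Fin q} {p : ℕ → ℕ} {f : ℕ → Fin k → Fin q}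

open Classical in
/-- **for most `m` the heights of all integral points are bounded by one constant** -/
theorem uniform (hk : 3 ≤ k) (H : Tr L N b p F f c) (S : Finset ℕ) (ε : ℝ) (hε : 0 < ε) :
    ∃ D : ℝ, 0 < D ∧ ∀ R : ℝ, 1 ≤ R → ∃ B : ℕ, 1 ≤ B ∧ ∀ X : ℕ,
      ((({m | 1 ≤ m ∧ m ≤ X ∧ ∃ x ∈ Ym S L m, R < (AR.rd S L x : ℝ) ∨ B < hx x} : Set ℕ).ncard : ℕ) :
        ℝ) ≤ D * R ^ (2 / (k : ℝ) - 1 + ε) * X := by
  have hk3 : (3 : ℝ) ≤ k := by exact_mod_cast hk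
  have hk1 : 2 / (k : ℝ) < 1 := by
    rw [div_lt_one (by linarith)]
    linarith
  obtain ⟨δ, hδ⟩ : ∃ δ : ℝ, δ = min ε ((1 - 2 / (k : ℝ)) / 2) := ⟨_, rfl⟩
  have hδ0 : 0 < δ := by rw [hδ]; exact lt_min hε (by linarith)
  have hδ1 : δ ≤ ε := by rw [hδ]; exact min_le_left _ _
  have hδ2 : δ ≤ (1 - 2 / (k : ℝ)) / 2 := by rw [hδ]; exact min_le_right _ _
  obtain ⟨θ, hθ⟩ : ∃ θ : ℝ, θ = 2 / (k : ℝ) + δ := ⟨_, rfl⟩
  have hθ1 : θ < 1 := by rw [hθ]; linarith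
  obtain ⟨C, hC, hcount⟩ := pointsA hk H S δ hδ0
  rw [← hθ] at hcount
  have hc2 : ∀ X : ℝ, 1 ≤ X → ∀ Q : Finset {x : Fin (n + 1) → ℤ // univ.gcd x = 1 ∧
      ∀ l, vl L x l ≠ 0}, (∀ a ∈ Q, (AR.rd S L a.1 : ℝ) ≤ X) → (Q.card : ℝ) ≤ C * X ^ θ := by
    intro X hX Q hQ
    have h1 := hcount X hX (Q.image Subtype.val) (by
      intro x hx
      rw [mem_image] at hx
      obtain ⟨a, ha, rfl⟩ := hx
      exact ⟨a.2.1, a.2.2, hQ a ha⟩)
    rwa [Finset.card_image_of_injective _ Subtype.val_injective] at h1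
  obtain ⟨D, hD, hrare⟩ := rare (fun a : {x : Fin (n + 1) → ℤ // univ.gcd x = 1 ∧
      ∀ l, vl L x l ≠ 0} => AR.rd S L a.1) C θ hC.le hθ1 hc2
  refine ⟨D, hD, ?_⟩
  intro R hR1
  have hfin : ({x | univ.gcd x = 1 ∧ (∀ l, vl L x l ≠ 0) ∧ (AR.rd S L x : ℝ) ≤ R} :
      Set (Fin (n + 1) → ℤ)).Finite := fin_of_bound (B := C * R ^ θ) fun Q hQ => hcount R hR1 Q hQ
  refine ⟨hfin.toFinset.sup hx + 1, by omega, ?_⟩
  intro X
  obtain ⟨E, hE⟩ : ∃ E : Set ℕ, E = {m | 1 ≤ m ∧ m ≤ X ∧ ∃ x ∈ Ym S L m,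
      R < (AR.rd S L x : ℝ) ∨ hfin.toFinset.sup hx + 1 < hx x} := ⟨_, rfl⟩
  rw [← hE]
  rcases Nat.eq_zero_or_pos X with rfl | hX
  · have h0 : E = ∅ := by
      rw [hE]
      ext m
      constructor
      · rintro ⟨h1, h2, -⟩
        exact absurd h1 (by omega)
      · intro h
        exact absurd h (Set.notMem_empty m)
    rw [h0, Set.ncard_empty]
    simp
  have h1 := hrare R hR1 X hX
  have hsub : E ⊆
      {m | 1 ≤ m ∧ m ≤ X ∧ ∃ a : {x : Fin (n + 1) → ℤ // univ.gcd x = 1 ∧ ∀ l, vl L x l ≠ 0},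
        AR.rd S L a.1 ∣ m ∧ R < AR.rd S L a.1} := by
    rw [hE]
    rintro m ⟨g1, g2, x, ⟨g3, g4, g5⟩, g6⟩
    refine ⟨g1, g2, ⟨x, g3, g4⟩, g5, ?_⟩
    by_contra hcon
    rw [not_lt] at hcon
    have h2 : x ∈ hfin.toFinset := by
      rw [Set.Finite.mem_toFinset]
      exact ⟨g3, g4, hcon⟩
    have h3 := Finset.le_sup (f := hx) h2
    rcases g6 with g6 | g6
    · exact absurd g6 (not_lt.2 hcon)
    · omega
  have hfin2 : ({m | 1 ≤ m ∧ m ≤ X ∧ ∃ a : {x : Fin (n + 1) → ℤ // univ.gcd x = 1 ∧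
      ∀ l, vl L x l ≠ 0}, AR.rd S L a.1 ∣ m ∧ R < AR.rd S L a.1} : Set ℕ).Finite :=
    (Set.finite_Icc 1 X).subset fun m hm => ⟨hm.1, hm.2.1⟩
  have h2 := Set.ncard_le_ncard hsub hfin2
  have h3 : ((E.ncard : ℕ) : ℝ) ≤ D * R ^ (θ - 1) * X := le_trans (by exact_mod_cast h2) h1
  refine h3.trans (mul_le_mul_of_nonneg_right ?_ (Nat.cast_nonneg _))
  apply mul_le_mul_of_nonneg_left _ hD.le
  apply Real.rpow_le_rpow_of_exponent_le hR1
  rw [hθ]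
  linarith

/-- the `T`-part of an integer -/
lemma padic_sum_le {z : ℤ} (hz : z ≠ 0) (T : Finset ℕ) (hT : ∀ p ∈ T, p.Prime) :
    ∑ p ∈ T, (padicValInt p z : ℝ) * Real.log p ≤ Real.log |(z : ℝ)| := by
  have h0 : z.natAbs ≠ 0 := Int.natAbs_ne_zero.2 hz
  have h1 : Real.log |(z : ℝ)| = ∑ p ∈ z.natAbs.primeFactors, (padicValInt p z : ℝ) * Real.log p := by
    have e1 : |(z : ℝ)| = ((z.natAbs : ℕ) : ℝ) := by
      rw [Nat.cast_natAbs]
      push_cast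
      rfl
    rw [e1, Real.log_nat_eq_sum_factorization]
    unfold Finsupp.sum
    rw [Nat.support_factorization]
    apply Finset.sum_congr rfl
    intro p hp
    have := Nat.factorization_def z.natAbs (Nat.prime_of_mem_primeFactors hp)
    rw [this]
    rfl
  rw [h1]
  have h2 : ∑ p ∈ T, (padicValInt p z : ℝ) * Real.log p =
      ∑ p ∈ T.filter (· ∈ z.natAbs.primeFactors), (padicValInt p z : ℝ) * Real.log p := by
    rw [Finset.sum_filter_of_ne]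
    intro p hp hne
    rw [Nat.mem_primeFactors]
    refine ⟨hT p hp, ?_, h0⟩
    by_contra hd
    apply hne
    have : padicValInt p z = 0 := padicValNat.eq_zero_of_not_dvd hd
    rw [this]
    simp
  rw [h2]
  apply Finset.sum_le_sum_of_subset_of_nonneg
  · intro p hp
    exact (mem_filter.1 hp).2
  · intro p hp _
    have := (Nat.prime_of_mem_primeFactors hp).one_lt
    exact mul_nonneg (Nat.cast_nonneg _) (Real.log_nonneg (by exact_mod_cast this.le))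

end

end Pool.Agent.H583.MO
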